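import Mathlib

open Finset

namespace Pool.Agent.H.MP_e25938_co

theorem pig (nx : ℕ → ℕ) (h : ∀ t, t ≤ nx t) (M : ℕ) : ∀ P, ∃ L, ∀ p ≤ P, ∀ Z : Finset ℕ,
    Z.card ≤ M → ∃ t, p ≤ t ∧ nx t ≤ L ∧ ∀ i ∈ Z, ¬(t < i ∧ i ≤ nx t) := by
  have h0 : ∀ P p, p ≤ P → nx p ≤ (range (P + 1)).sup nx := fun P p hp =>
    le_sup (f := nx) (mem_range.2 (by omega))
  induction M with
  | zero =>
    refine fun P => ⟨_, fun p hp Z hZ => ⟨p, le_rfl, h0 P p hp, ?_⟩⟩
    simp [card_eq_zero.1 (Nat.le_zero.1 hZ)]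
  | succ M ih =>
    intro P
    obtain ⟨L, hL⟩ := ih ((range (P + 1)).sup nx)
    refine ⟨max L ((range (P + 1)).sup nx), fun p hp Z hZ => ?_⟩
    by_cases c : ∀ i ∈ Z, ¬(p < i ∧ i ≤ nx p)
    · exact ⟨p, le_rfl, (h0 P p hp).trans (le_max_right _ _), c⟩
    push Not at c
    obtain ⟨j, hj, -, h2⟩ := c
    obtain ⟨t, h3, h4, h5⟩ := hL (nx p) (h0 P p hp) (Z.erase j) (by rw [card_erase_of_mem hj]; omega)
    refine ⟨t, (h p).trans h3, h4.trans (le_max_left _ _), fun i hi => ?_⟩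
    by_cases e : i = j
    · omega
    · exact h5 i (mem_erase.2 ⟨e, hi⟩)

structure Seq where
  β : ℕ → ℤ
  n : ℕ → ℤ
  lo : ∀ j, 2 ≤ β j
  hi : ∀ j, β j ≤ 8
  unit : ∀ j, IsCoprime 9 (n j)
  n0 : n 0 = 1
  n1 : n 1 = β 0
  rec' : ∀ j, n (j + 2) = β (j + 1) * n (j + 1) - 9 * n j

variable (Q : Seq)

theorem desc (μ : ℕ) : ∀ t, μ ≤ t → ∀ X Y : ℤ, |3 * Y| ≤ μ → |3 * Y - X| ≤ μ →
    9 ^ μ ∣ X * Q.n t - Y * Q.n (t + 1) → X = 0 ∧ Y = 0 := by
  induction μ with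
  | zero =>
    intro t _ X Y h1 h2 _
    rw [abs_le] at h1 h2
    omega
  | succ μ ih =>
    intro t ht X Y h1 h2 h3
    obtain ⟨t, rfl⟩ : ∃ s, t = s + 1 := ⟨t - 1, by omega⟩
    rw [Q.rec'] at h3
    have h4 : (9 : ℤ) ∣ (Q.β (t + 1) * Y - X) * Q.n (t + 1) := by
      have := dvd_sub (Dvd.intro (Y * Q.n t) rfl) ((dvd_pow_self 9 μ.succ_ne_zero).trans h3)
      rwa [show 9 * (Y * Q.n t) - (X * Q.n (t + 1) - Y * (Q.β (t + 1) * Q.n (t + 1) - 9 * Q.n t)) =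
        (Q.β (t + 1) * Y - X) * Q.n (t + 1) by ring] at this
    obtain ⟨Y', hY⟩ := (Q.unit _).dvd_of_dvd_mul_right h4
    have hX : X = Q.β (t + 1) * Y - 9 * Y' := by linarith
    have l := Q.lo (t + 1)
    have u := Q.hi (t + 1)
    rw [abs_le] at h1 h2
    obtain ⟨rfl, rfl⟩ := ih t (by omega) Y Y' (by
        generalize Q.β (t + 1) = b at *
        rw [abs_le]
        interval_cases b <;> omega) (by
        generalize Q.β (t + 1) = b at *
        rw [abs_le]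
        interval_cases b <;> omega) (by
      rw [← mul_dvd_mul_iff_left (show (9 : ℤ) ≠ 0 by norm_num), ← pow_succ']
      rwa [hX, show (Q.β (t + 1) * Y - 9 * Y') * Q.n (t + 1) -
        Y * (Q.β (t + 1) * Q.n (t + 1) - 9 * Q.n t) = 9 * (Y * Q.n t - Y' * Q.n (t + 1)) by ring] at h3)
    simpa using hX

def Sol (s : ℕ → ℚ) : Prop := ∀ i, 3 * s (i + 2) = Q.β (i + 1) * s (i + 1) - 3 * s i

def y (i : ℕ) : ℚ := Q.n i / 3 ^ i

theorem sol_y : Sol Q (y Q) := fun i => by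
  simp only [y, Q.rec']
  push_cast
  field_simp
  ring

theorem int_sum (c : ℕ → ℤ) (t : ℕ) :
    ∃ I : ℤ, 3 ^ t * ∑ i ∈ range (t + 1), c i * y Q i = I := by
  induction t with
  | zero => exact ⟨c 0 * Q.n 0, by simp [y]⟩
  | succ t ih =>
    obtain ⟨I, hI⟩ := ih
    refine ⟨3 * I + c (t + 1) * Q.n (t + 1), ?_⟩
    rw [sum_range_succ, mul_add, pow_succ', mul_assoc, hI, y]
    push_cast
    field_simp
    ring

theorem split (f : ℕ → ℚ) {t b : ℕ} (h : t ≤ b) :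
    ∑ i ∈ range (b + 1), f i = ∑ i ∈ range (t + 1), f i + ∑ i ∈ Ioc t b, f i := by
  induction b, h using Nat.le_induction with
  | base => simp
  | succ b h ih => rw [sum_range_succ, ih, sum_Ioc_succ_top h, add_assoc]

theorem skip (c : ℕ → ℤ) (s : ℕ → ℚ) {i p b : ℕ} (h1 : i ≤ p) (h2 : p ≤ b)
    (h : ∀ j, i < j → j ≤ p → c j = 0) :
    ∑ j ∈ Ioc i b, c j * s j = ∑ j ∈ Ioc p b, c j * s j := by
  rw [← sum_Ioc_consecutive _ h1 h2, sum_eq_zero, zero_add]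
  intro j hj
  rw [mem_Ioc] at hj
  simp [h j hj.1 hj.2]

def Ht (H : ℕ) (c : ℕ → ℤ) (b p h : ℕ) : Prop :=
  ∃ A B : ℤ, |A| ≤ H * 12 ^ h ∧ |B| ≤ H * 12 ^ h ∧ ∀ s, Sol Q s →
    3 ^ h * ∑ j ∈ Ioc p b, c j * s j = 3 * (B * s p - A * s (p + 1))

variable {Q} {H : ℕ} {c : ℕ → ℤ} {b : ℕ}

theorem Ht.step (hc : ∀ i ≤ b, |c i| ≤ H) {p h : ℕ} (hp : p + 1 ≤ b) (h1 : Ht Q H c b (p + 1) h) :
    Ht Q H c b p (h + 1) := by
  obtain ⟨A, B, hA, hB, hs⟩ := h1
  have h3 : (3 : ℤ) ^ h ≤ 12 ^ h := pow_le_pow_left₀ (by norm_num) (by norm_num) h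
  have p3 : (0 : ℤ) < 3 ^ h := by positivity
  refine ⟨Q.β (p + 1) * A - 3 * B - 3 ^ h * c (p + 1), 3 * A, ?_, ?_, fun s hs' => ?_⟩
  · have e1 : |3 ^ h * c (p + 1)| ≤ H * 12 ^ h := by
      rw [abs_mul, abs_of_pos p3, mul_comm]
      exact mul_le_mul (hc _ hp) h3 p3.le (by positivity)
    have l := Q.lo (p + 1)
    have u := Q.hi (p + 1)
    rw [pow_succ, ← mul_assoc]
    generalize Q.β (p + 1) = β at *
    generalize 3 ^ h * c (p + 1) = w at *
    generalize (H : ℤ) * 12 ^ h = z at *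
    rw [abs_le] at *
    interval_cases β <;> omega
  · rw [pow_succ, ← mul_assoc]
    generalize (H : ℤ) * 12 ^ h = z at *
    rw [abs_le] at *
    omega
  · rw [← sum_Ioc_consecutive _ p.le_succ hp, Nat.Ioc_succ_singleton, sum_singleton]
    push_cast
    linear_combination 3 * hs s hs' - 3 * A * hs' p

theorem Ht.steps (hc : ∀ i ≤ b, |c i| ≤ H) {h : ℕ} (d : ℕ) : ∀ p, p + d ≤ b →
    Ht Q H c b (p + d) h → Ht Q H c b p (h + d) := by
  induction d with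
  | zero => exact fun p _ h => h
  | succ d ih =>
    intro p hp h1
    exact Ht.step hc (by omega) (ih (p + 1) (by omega) (by rwa [add_right_comm]))

theorem Ht.gap (h0 : ∑ i ∈ range (b + 1), c i * y Q i = 0) {p h i : ℕ} (h1 : Ht Q H c b p h)
    (hp : p ≤ b) (hi : i + 12 * (H * 12 ^ h) ≤ p) (hz : ∀ j, i < j → j ≤ p → c j = 0) (s : ℕ → ℚ)
    (hs : Sol Q s) : ∑ j ∈ Ioc i b, c j * s j = 0 := by
  obtain ⟨A, B, hA, hB, h1⟩ := h1
  obtain ⟨d, rfl⟩ := Nat.exists_eq_add_of_le (le_of_add_le_left hi)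
  obtain ⟨I, hI⟩ := int_sum Q c i
  have h2 := h1 _ (sol_y Q)
  rw [split _ (le_of_add_le_left hp), skip c _ le_self_add hp hz] at h0
  have h3 : (3 * B) * Q.n (i + d) - A * Q.n (i + d + 1) = 3 ^ d * (-3 ^ h * I) := by
    have : (((3 * B) * Q.n (i + d) - A * Q.n (i + d + 1) : ℤ) : ℚ) = (3 ^ d * (-3 ^ h * I) : ℤ) := by
      push_cast
      have e1 : (Q.n (i + d) : ℚ) = 3 ^ (i + d) * y Q (i + d) := by
        rw [y]
        field_simp
      have e2 : (Q.n (i + d + 1) : ℚ) = 3 ^ (i + d + 1) * y Q (i + d + 1) := by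
        rw [y]
        field_simp
      rw [← hI, eq_neg_of_add_eq_zero_left h0, e1, e2]
      linear_combination (-3 ^ (i + d)) * h2
    exact_mod_cast this
  obtain ⟨e1, e2⟩ := desc Q (6 * (H * 12 ^ h)) (i + d) (by omega) (3 * B) A
    (by push_cast; rw [abs_le] at *; omega) (by push_cast; rw [abs_le] at *; omega) (by
      rw [h3, show (9 : ℤ) = 3 ^ 2 by norm_num, ← pow_mul]
      exact (pow_dvd_pow 3 (by omega)).mul_right _)
  have := h1 s hs
  rw [e2, show B = 0 by omega] at this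
  rw [skip c _ le_self_add hp hz]
  simpa using this

def eta (H : ℕ) : ℕ → ℕ
  | 0 => 0
  | q + 1 => eta H q + 12 * (H * 12 ^ eta H q) + 1

theorem eta_mono (H : ℕ) : Monotone (eta H) :=
  monotone_nat_of_le_succ fun q => by rw [eta]; omega

theorem loc (hc : ∀ i ≤ b, |c i| ≤ H) (h0 : ∑ i ∈ range (b + 1), c i * y Q i = 0)
    (hF : #{j ∈ range (b + 1) | c j ≠ 0} ≤ H) {t : ℕ} (ht : t ≤ b)
    (hz : ∀ j, t < j → j ≤ t + eta H (H + 1) → c j = 0) (s : ℕ → ℚ) (hs : Sol Q s) :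
    ∑ j ∈ Ioc t b, c j * s j = 0 := by
  have mo : ∀ {h q}, h ≤ eta H q → 12 * (H * 12 ^ h) ≤ 12 * (H * 12 ^ eta H q) := fun e => by
    gcongr
    norm_num
  have inv : ∀ d i, i + d = b → ∃ p h, i ≤ p ∧ p ≤ b ∧ (∀ j, i < j → j ≤ p → c j = 0) ∧
      h ≤ eta H #{j ∈ Ioc p b | c j ≠ 0} ∧ Ht Q H c b p h := by
    intro d
    induction d with
    | zero =>
      rintro i rfl
      exact ⟨i, 0, le_rfl, le_rfl, fun j _ _ => by omega, Nat.zero_le _, 0, 0, by simp, by simp,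
        by simp⟩
    | succ d ih =>
      intro i hi
      obtain ⟨p, h, h1, h2, h3, h4, h5⟩ := ih (i + 1) (by omega)
      by_cases e : c (i + 1) = 0
      · refine ⟨p, h, by omega, h2, fun j j1 j2 => ?_, h4, h5⟩
        by_cases e' : j = i + 1
        · rwa [e']
        · exact h3 j (by omega) j2
      have lt : #{j ∈ Ioc p b | c j ≠ 0} + 1 ≤ #{j ∈ Ioc i b | c j ≠ 0} := by
        refine card_lt_card ((ssubset_iff_of_subset (filter_subset_filter _
          (Ioc_subset_Ioc_left (by omega)))).2 ⟨i + 1, ?_, ?_⟩)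
        · simp only [mem_filter, mem_Ioc]
          exact ⟨by omega, e⟩
        · simp only [mem_filter, mem_Ioc]
          omega
      have le := eta_mono H lt
      rw [eta] at le
      have := mo h4
      by_cases g : i + 1 + 12 * (H * 12 ^ h) ≤ p
      · refine ⟨i, 0 + 1, le_rfl, by omega, fun j _ _ => by omega, by omega,
          Ht.step hc (by omega) ⟨0, 0, by simp, by simp, fun s hs => ?_⟩⟩
        rw [h5.gap h0 h2 g h3 s hs]
        simp
      · obtain ⟨d, rfl⟩ := Nat.exists_eq_add_of_le (le_of_add_le_left h1)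
        exact ⟨i, h + d, le_rfl, by omega, fun j _ _ => by omega, by omega, Ht.steps hc d i h2 h5⟩
  by_cases e : b ≤ t + eta H (H + 1)
  · rw [skip c s ht le_rfl fun j j1 j2 => hz j j1 (by omega)]
    simp
  obtain ⟨p, h, h1, h2, h3, h4, h5⟩ := inv (b - (t + eta H (H + 1))) (t + eta H (H + 1)) (by omega)
  have := mo (h4.trans (eta_mono H ((card_le_card (filter_subset_filter _ fun j hj => by
    rw [mem_Ioc] at hj
    exact mem_range.2 (by omega))).trans hF)))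
  refine h5.gap h0 h2 (by rw [eta] at h1; omega) (fun j j1 j2 => ?_) s hs
  by_cases e' : j ≤ t + eta H (H + 1)
  · exact hz j j1 e'
  · exact h3 j (by omega) j2

end Pool.Agent.H.MP_e25938_co
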