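import Pool.Agent.H.MP_e25938_co.A

open Finset

namespace Pool.Agent.H.MP_e25938_co

variable (Q : Seq)

def Jm (i j : ℕ) : ℤ := if i = j then Q.β i else if i + 1 = j ∨ j + 1 = i then -3 else 0

def y2 : ℕ → ℚ
  | 0 => 0
  | 1 => 1
  | i + 2 => (Q.β (i + 1) * y2 (i + 1) - 3 * y2 i) / 3

theorem sol_y2 : Sol Q (y2 Q) := fun i => by
  rw [y2]
  ring

theorem wr (e : ℕ) : y Q e * y2 Q (e + 1) - y Q (e + 1) * y2 Q e = 1 := by
  induction e with
  | zero => simp [y, y2, Q.n0]
  | succ e ih =>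
    linear_combination ih + y Q (e + 1) / 3 * sol_y2 Q e - y2 Q (e + 1) / 3 * sol_y Q e

theorem card_sq {ι : Type*} (s : Finset ι) (f : ι → ℤ) :
    (#{j ∈ s | f j ≠ 0} : ℤ) ≤ ∑ j ∈ s, f j ^ 2 := by
  rw [card_filter]
  push_cast
  refine sum_le_sum fun j _ => ?_
  split_ifs with h
  · exact (show 0 < f j ^ 2 by positivity)
  · positivity

variable {Q} {m S L : ℕ} {b : ℕ → Fin m → ℤ}
  (hG : ∀ i ≤ L, ∀ j ≤ L, ∑ k, b i k * b j k = S * Jm Q i j)
include hG

theorem bes (x : ℕ → ℤ) (t : ℕ) (ht : t ≤ L) :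
    ∑ k, (∑ i ∈ range (t + 1), x i * b i k) ^ 2 + 3 * S * x t ^ 2 ≤
      14 * S * ∑ i ∈ range (t + 1), x i ^ 2 := by
  have p : (0 : ℤ) ≤ S := by positivity
  have d : ∀ t ≤ L, ∑ k, (x t * b t k) ^ 2 ≤ 8 * S * x t ^ 2 := fun t ht => by
    have := hG t ht t ht
    simp only [Jm, if_true] at this
    simp only [mul_pow, ← mul_sum, sq (b _ _), this]
    nlinarith [mul_nonneg (mul_nonneg p (sub_nonneg.2 (Q.hi t))) (sq_nonneg (x t))]
  induction t with
  | zero =>
    simp only [zero_add, range_one, sum_singleton]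
    nlinarith [d 0 ht, mul_nonneg p (sq_nonneg (x 0))]
  | succ t ih =>
    have h1 : ∑ k, (∑ i ∈ range (t + 1), x i * b i k) * b (t + 1) k = -3 * S * x t := by
      simp only [sum_mul, mul_assoc]
      rw [sum_comm, sum_eq_single t]
      · rw [← mul_sum, hG t (by omega) _ ht]
        simp [Jm]
        ring
      · intro i hi h
        rw [mem_range] at hi
        rw [← mul_sum, hG i (by omega) _ ht, Jm, if_neg (by omega), if_neg (by omega)]
        simp
      · simp
    have h2 : ∑ k, (∑ i ∈ range (t + 1 + 1), x i * b i k) ^ 2 =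
        ∑ k, (∑ i ∈ range (t + 1), x i * b i k) ^ 2 + 2 * x (t + 1) * (-3 * S * x t) +
          ∑ k, (x (t + 1) * b (t + 1) k) ^ 2 := by
      rw [← h1, mul_sum, ← sum_add_distrib, ← sum_add_distrib]
      refine sum_congr rfl fun k _ => ?_
      rw [sum_range_succ]
      ring
    rw [h2, sum_range_succ _ (t + 1)]
    nlinarith [ih (by omega), d _ ht, mul_nonneg p (sq_nonneg (x t + x (t + 1)))]

theorem bes' (k : Fin m) : ∑ i ∈ range (L + 1), b i k ^ 2 ≤ 14 * S := by
  have h1 := bes hG (fun i => b i k) L le_rfl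
  have h2 := single_le_sum (f := fun k' => (∑ i ∈ range (L + 1), b i k * b i k') ^ 2)
    (fun _ _ => sq_nonneg _) (mem_univ k)
  simp only [← sq] at h2
  have h3 : 0 ≤ 3 * (S : ℤ) * b L k ^ 2 := by positivity
  by_contra c
  have : (0 : ℤ) ≤ S := by positivity
  nlinarith

theorem ue (e : ℕ) (he : e ≤ L) (i : ℕ) (hi : i ≤ L) :
    ∑ k, (∑ j ∈ range (e + 1), b j k * y Q j) * b i k =
      S * ((if i = e then 3 * y Q (e + 1) else 0) + if i = e + 1 then -3 * y Q e else 0) := by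
  have h : ∀ j ≤ L, ∑ k, (b j k : ℚ) * y Q j * b i k = S * (Jm Q j i * y Q j) := fun j hj => by
    have : ∑ k, (b j k : ℚ) * b i k = S * Jm Q j i := by exact_mod_cast hG j hj i hi
    simp only [mul_right_comm _ (y Q j)]
    rw [← sum_mul, this, mul_assoc]
  induction e with
  | zero =>
    simp only [zero_add, range_one, sum_singleton, h 0 he]
    rcases i with _ | _ | i
    · simp only [Jm, y, Q.n0, Q.n1]
      norm_num
      exact .inl (by ring)
    · simp [Jm]
    · simp [Jm]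
  | succ e ih =>
    simp only [sum_range_succ _ (e + 1), add_mul, sum_add_distrib, ih (by omega), h _ he, Jm]
    have := sol_y Q e
    split_ifs <;> first | omega | (simp; done) | (push_cast; ring; done) |
      linear_combination (-S : ℚ) * this

theorem uu (e : ℕ) (he : e ≤ L) (t : ℕ) (ht : t ≤ L) (s : ℕ → ℚ) :
    ∑ k, (∑ j ∈ range (e + 1), b j k * y Q j) * (∑ i ∈ range (t + 1), b i k * s i) =
      S * ((if e ≤ t then 3 * y Q (e + 1) * s e else 0) +
        if e + 1 ≤ t then -3 * y Q e * s (e + 1) else 0) := by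
  simp only [mul_sum _ _ (∑ j ∈ range (e + 1), _), ← mul_assoc]
  rw [sum_comm, sum_congr rfl fun i hi => by
    rw [← sum_mul, ue hG e he i (by rw [mem_range] at hi; omega)]]
  simp only [mul_assoc, ← mul_sum, add_mul, ite_mul, zero_mul, sum_add_distrib, sum_ite_eq',
    mem_range, Nat.lt_succ_iff]

omit hG

theorem core (hd : ∀ ε : ℚ, 0 < ε → ∀ t, ∃ τ, t ≤ τ ∧ y Q τ * y Q (τ + 1) < ε) (S : ℕ)
    (hS : 0 < S) : ∃ L, ∀ m, ∀ b : ℕ → Fin m → ℤ,
      ¬∀ i ≤ L, ∀ j ≤ L, ∑ k, b i k * b j k = S * Jm Q i j := by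
  have hS' : (0 : ℚ) < S := by exact_mod_cast hS
  choose nx h1 h2 using fun t => hd (1 / (3 * S * 9 ^ t)) (by positivity) t
  set H := 14 * S with hH
  set g := eta H (H + 1) with hg
  obtain ⟨E, hE⟩ := pig (· + g) (fun t => le_self_add) (g * H * H) 0
  obtain ⟨L, hL⟩ := pig nx h1 (g * H * H + H) (E + 1)
  refine ⟨L, fun m b hG => ?_⟩
  have EL : E + 1 ≤ L := by
    obtain ⟨t, t1, t2, -⟩ := hL _ le_rfl ∅ (by simp)
    exact t1.trans ((h1 t).trans t2)
  let Z : Fin m → Finset ℕ := fun k => {j ∈ range (L + 1) | b j k ≠ 0}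
  have hZ : ∀ k, #(Z k) ≤ H := fun k => by
    exact_mod_cast (card_sq _ _).trans (bes' hG k)
  have A : ∀ k t, nx t ≤ L → (∀ i ∈ Z k, ¬(t < i ∧ i ≤ nx t)) →
      ∑ j ∈ range (t + 1), b j k * y Q j = 0 := by
    intro k t t1 t2
    obtain ⟨I, hI⟩ := int_sum Q (fun j => b j k) t
    have e1 := split (fun j => b j k * y Q j) (h1 t)
    rw [skip (fun j => b j k) _ (h1 t) le_rfl (fun j j1 j2 => by
      by_contra c
      exact t2 j (mem_filter.2 ⟨mem_range.2 (by omega), c⟩) ⟨j1, j2⟩)] at e1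
    have e2 := uu hG _ t1 _ t1 (y Q)
    have e3 := single_le_sum (f := fun k => (∑ j ∈ range (nx t + 1), b j k * y Q j) *
      (∑ j ∈ range (nx t + 1), b j k * y Q j)) (fun _ _ => mul_self_nonneg _) (mem_univ k)
    simp only [e2, e1, Ioc_self, sum_empty, add_zero, le_refl, if_true, add_le_iff_nonpos_right,
      nonpos_iff_eq_zero, one_ne_zero, if_false] at e3
    have e4 := h2 t
    rw [lt_div_iff₀ (by positivity)] at e4
    have e5 : (I : ℚ) * I < 1 := by
      rw [← hI]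
      have : (9 : ℚ) ^ t = 3 ^ t * 3 ^ t := by rw [← mul_pow]; norm_num
      have p : (0 : ℚ) < 9 ^ t := by positivity
      nlinarith [mul_le_mul_of_nonneg_left e3 p.le]
    have e6 : I * I < 1 := by exact_mod_cast e5
    have : I = 0 := by nlinarith
    simpa [this] using hI
  have Y : ∀ k t r, t ≤ r → nx r ≤ L → (∀ i ∈ Z k, ¬(r < i ∧ i ≤ nx r)) →
      (∀ j, t < j → j ≤ t + g → b j k = 0) → ∀ s, Sol Q s → ∑ j ∈ Ioc t r, b j k * s j = 0 := by
    intro k t r t1 t2 t3 t4 s hs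
    have rL := (h1 r).trans t2
    refine loc (H := H) (c := fun j => b j k) (fun i hi => ?_) (A k r t2 t3)
      ((card_le_card (filter_subset_filter _ (range_subset_range.2 (by omega)))).trans (hZ k))
      t1 t4 s hs
    have := (single_le_sum (f := fun i => b i k ^ 2) (fun _ _ => sq_nonneg _)
      (mem_range.2 (by omega : i < L + 1))).trans (bes' hG k)
    push_cast [hH]
    rw [abs_le]
    constructor <;> nlinarith [sq_nonneg (b i k - 1), sq_nonneg (b i k + 1), Int.le_self_sq (b i k),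
      Int.le_self_sq (-b i k)]
  let K : ℕ → Finset (Fin m) := fun e => (Ioc e (e + g)).biUnion fun i => {k | b i k ≠ 0}
  have hK : ∀ e, e + g ≤ L → #((K e).biUnion Z) ≤ g * H * H := fun e he => by
    refine (card_biUnion_le_card_mul _ _ _ fun k _ => hZ k).trans (Nat.mul_le_mul_right _ ?_)
    refine (card_biUnion_le_card_mul _ _ H fun i hi => ?_).trans (by simp)
    rw [mem_Ioc] at hi
    have h3 := card_sq univ (b i)
    have h4 := hG i (by omega) i (by omega)
    simp only [Jm, if_true, ← sq] at h4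
    have h5 := Q.hi i
    have : (#{k | b i k ≠ 0} : ℤ) ≤ 14 * S := by nlinarith
    exact_mod_cast this
  have nK : ∀ e k, k ∉ K e → ∀ j, e < j → j ≤ e + g → b j k = 0 := fun e k hk j j1 j2 => by
    by_contra c
    exact hk (mem_biUnion.2 ⟨j, mem_Ioc.2 ⟨j1, j2⟩, by simpa using c⟩)
  have gE : g ≤ E := by
    obtain ⟨t, -, t2, -⟩ := hE 0 le_rfl ∅ (by simp)
    omega
  obtain ⟨e, -, e1, e2⟩ := hE 0 le_rfl _ (hK 0 (by omega))
  obtain ⟨r, r1, r2, r3⟩ := hL (E + 1) le_rfl _ ((hK e (by omega)).trans le_self_add)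
  have := uu hG e (by omega) r ((h1 r).trans r2) (y2 Q)
  rw [if_pos (by omega), if_pos (by omega), sum_eq_zero] at this
  · nlinarith [wr Q e]
  intro k _
  by_cases c : k ∈ K e
  · refine mul_eq_zero_of_right _ ?_
    rw [split _ r.zero_le, Y k 0 r r.zero_le r2
      (fun i hi => r3 i (mem_biUnion.2 ⟨k, c, hi⟩)) (nK 0 k fun c0 => ?_) _ (sol_y2 Q)]
    · simp [y2]
    · obtain ⟨i, i1, i2⟩ := mem_biUnion.1 c
      rw [mem_Ioc] at i1
      exact e2 i (mem_biUnion.2 ⟨k, c0, mem_filter.2 ⟨mem_range.2 (by omega), by simpa using i2⟩⟩) i1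
  · refine mul_eq_zero_of_left ?_ _
    obtain ⟨p, p1, p2, p3⟩ := hL (E + 1) le_rfl _ ((hZ k).trans le_add_self)
    have h3 := A k p p2 p3
    rwa [split _ (by omega : e ≤ p), Y k e p (by omega) p2 p3 (nK e k c) _ (sol_y Q),
      add_zero] at h3

end Pool.Agent.H.MP_e25938_co
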