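import Pool.Agent.H.MP_e25938_co.B

open Finset Matrix

namespace Pool.Agent.H.MP_e25938_co

def nb (p q : ℤ) : ℤ := if 18 * p ≤ 7 * q then 5 else if 18 * p ≤ 11 * q then 7 else 8

def st : ℕ → ℤ × ℤ
  | 0 => (1, 2)
  | j + 1 => ((st j).2, nb (st j).1 (st j).2 * (st j).2 - 9 * (st j).1)

theorem st_inv (j : ℕ) : 0 < (st j).1 ∧ 3 * (st j).1 ≤ 2 * (st j).2 ∧ 2 * (st j).2 ≤ 7 * (st j).1 ∧
    ¬3 ∣ (st j).1 ∧ ¬3 ∣ (st j).2 := by
  induction j with
  | zero => decide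
  | succ j ih =>
    simp only [st, nb]
    split_ifs <;> omega

def Q0 : Seq where
  β j := match j with
    | 0 => 2
    | j + 1 => nb (st j).1 (st j).2
  n j := (st j).1
  lo j := by
    cases j
    · rfl
    · simp only [nb]
      split_ifs <;> omega
  hi j := by
    cases j
    · decide
    · simp only [nb]
      split_ifs <;> omega
  unit j := (Int.prime_three.coprime_iff_not_dvd.2 (st_inv j).2.2.2.1).pow_left (m := 2)
  n0 := rfl
  n1 := rfl
  rec' _ := rfl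

theorem y_pos (j : ℕ) : 0 < y Q0 j := div_pos (by exact_mod_cast (st_inv j).1) (by positivity)

theorem y_up (j : ℕ) : y Q0 (j + 1) ≤ 7 / 6 * y Q0 j := by
  have : (2 * Q0.n (j + 1) : ℚ) ≤ 7 * Q0.n j := by exact_mod_cast (st_inv j).2.2.1
  simp only [y]
  rw [div_le_iff₀ (by positivity)]
  field_simp
  rw [pow_succ]
  nlinarith [mul_le_mul_of_nonneg_left this (by positivity : (0 : ℚ) ≤ 3 ^ j)]

theorem y_dn (j : ℕ) : ∃ i, j + 1 ≤ i ∧ y Q0 i ≤ 17 / 18 * y Q0 j := by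
  have h := st_inv j
  by_cases c : 18 * (st j).1 ≤ 7 * (st j).2
  · refine ⟨j + 2, by omega, ?_⟩
    have : 2 * Q0.n (j + 2) ≤ 17 * Q0.n j := by
      simp only [Q0, st, nb, if_pos c]
      omega
    have : (2 * Q0.n (j + 2) : ℚ) ≤ 17 * Q0.n j := by exact_mod_cast this
    simp only [y]
    rw [div_le_iff₀ (by positivity)]
    field_simp
    rw [pow_add]
    nlinarith [mul_le_mul_of_nonneg_left this (by positivity : (0 : ℚ) ≤ 3 ^ j)]
  · refine ⟨j + 1, le_rfl, ?_⟩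
    have : 6 * Q0.n (j + 1) ≤ 17 * Q0.n j := by
      simp only [Q0, st]
      omega
    have : (6 * Q0.n (j + 1) : ℚ) ≤ 17 * Q0.n j := by exact_mod_cast this
    simp only [y]
    rw [div_le_iff₀ (by positivity)]
    field_simp
    rw [pow_succ]
    nlinarith [mul_le_mul_of_nonneg_left this (by positivity : (0 : ℚ) ≤ 3 ^ j)]

theorem y_dec (ε : ℚ) (h : 0 < ε) (t : ℕ) : ∃ τ, t ≤ τ ∧ y Q0 τ * y Q0 (τ + 1) < ε := by
  have a : ∀ N, ∃ j, N ≤ j ∧ y Q0 j ≤ (17 / 18) ^ N := by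
    intro N
    induction N with
    | zero => exact ⟨0, le_rfl, by simp [y, Q0.n0]⟩
    | succ N ih =>
      obtain ⟨j, h1, h2⟩ := ih
      obtain ⟨i, h3, h4⟩ := y_dn j
      exact ⟨i, by omega, by rw [pow_succ]; linarith⟩
  obtain ⟨N, hN⟩ := exists_pow_lt_of_lt_one (half_pos h) (by norm_num : (17 / 18 : ℚ) < 1)
  obtain ⟨j, h1, h2⟩ := a (N + t)
  have h3 : (17 / 18 : ℚ) ^ (N + t) ≤ (17 / 18) ^ N :=
    pow_le_pow_of_le_one (by norm_num) (by norm_num) le_self_add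
  have h4 : (17 / 18 : ℚ) ^ N ≤ 1 := pow_le_one₀ (by norm_num) (by norm_num)
  exact ⟨j, by omega, by nlinarith [y_pos j, y_pos (j + 1), y_up j]⟩

theorem psd {V : Type} [Fintype V] [DecidableEq V] (G : SimpleGraph V) [DecidableRel G.Adj]
    (f : V → ℝ) (h0 : ∀ v, 0 < f v) (h : ∀ v, ∑ w, G.adjMatrix ℝ v w * f w ≤ 3 * f v) :
    (G.adjMatrix ℝ + (3 : ℝ) • (1 : Matrix V V ℝ)).PosSemidef := by
  refine .of_dotProduct_mulVec_nonneg (.add G.isSymm_adjMatrix ?_) fun x => ?_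
  · simp [IsHermitian]
  have s : ∀ v w, G.adjMatrix ℝ v w = G.adjMatrix ℝ w v := fun v w => by simp [G.adj_comm]
  have h1 : ∑ v, ∑ w, G.adjMatrix ℝ v w * (x v ^ 2 * f w / f v) ≤ 3 * ∑ v, x v ^ 2 := by
    rw [mul_sum]
    refine sum_le_sum fun v _ => ?_
    have := mul_le_mul_of_nonneg_left (h v) (div_nonneg (sq_nonneg (x v)) (h0 v).le)
    rw [mul_sum] at this
    convert this using 1
    · exact sum_congr rfl fun w _ => by ring
    · have := h0 v
      field_simp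
  have h2 : ∑ v, ∑ w, G.adjMatrix ℝ v w * (x w ^ 2 * f v / f w) ≤ 3 * ∑ v, x v ^ 2 := by
    rw [sum_comm]
    simpa only [s] using h1
  have h3 : 0 ≤ ∑ v, ∑ w, (G.adjMatrix ℝ v w * (x v ^ 2 * f w / f v) +
      G.adjMatrix ℝ v w * (x w ^ 2 * f v / f w) + 2 * (x v * (G.adjMatrix ℝ v w * x w))) := by
    refine sum_nonneg fun v _ => sum_nonneg fun w _ => ?_
    have := h0 v
    have := h0 w
    rw [SimpleGraph.adjMatrix_apply]
    split_ifs
    · have e : 1 * (x v ^ 2 * f w / f v) + 1 * (x w ^ 2 * f v / f w) + 2 * (x v * (1 * x w)) =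
          (x v * f w + x w * f v) ^ 2 / (f v * f w) := by
        field_simp
        ring
      rw [e]
      positivity
    · simp
  simp only [sum_add_distrib, ← mul_sum] at h3
  simp only [add_mulVec, smul_mulVec, one_mulVec, dotProduct_add, star_trivial, dotProduct_smul]
  simp only [dotProduct, mulVec, ← sq, smul_eq_mul]
  linarith

def mm (j : ℕ) : ℕ := (9 - Q0.β j).toNat

theorem mm_eq (j : ℕ) : (mm j : ℤ) = 9 - Q0.β j := by
  have := Q0.hi j
  rw [mm]
  omega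

theorem mm_card (j : ℕ) : #{b : Fin 8 | b ≠ 0 ∧ b.val ≤ mm j} = mm j := by
  have : mm j ≤ 7 := by
    have := Q0.lo j
    have := mm_eq j
    omega
  generalize mm j = m at *
  interval_cases m <;> decide

def Gr (L : ℕ) : SimpleGraph (Fin (L + 1) × Fin 8) where
  Adj v w := (v.2 = 0 ∧ w.2 = 0 ∧ (v.1.val + 1 = w.1.val ∨ w.1.val + 1 = v.1.val)) ∨
    (v.1 = w.1 ∧ ((v.2 = 0 ∧ w.2 ≠ 0 ∧ w.2.val ≤ mm v.1) ∨ (w.2 = 0 ∧ v.2 ≠ 0 ∧ v.2.val ≤ mm v.1)))
  symm := ⟨by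
    rintro ⟨i, a⟩ ⟨j, b⟩ (h | ⟨h, h'⟩)
    · exact .inl ⟨h.2.1, h.1, h.2.2.symm⟩
    · obtain rfl : i = j := h
      exact .inr ⟨rfl, h'.symm⟩⟩
  loopless := ⟨by
    rintro ⟨i, a⟩ (h | ⟨-, h | h⟩)
    · omega
    · exact h.2.1 h.1
    · exact h.2.1 h.1⟩

instance (L : ℕ) : DecidableRel (Gr L).Adj := fun v w => by unfold Gr; infer_instance

theorem ns {R : Type} [CommRing R] {L : ℕ} (g : Fin (L + 1) × Fin 8 → R) (i : Fin (L + 1))
    (a : Fin 8) : ∑ w, (Gr L).adjMatrix R (i, a) w * g w =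
      if a = 0 then (∑ j : Fin (L + 1), if i.val + 1 = j.val ∨ j.val + 1 = i.val then g (j, 0) else 0)
        + ∑ b : Fin 8, if b ≠ 0 ∧ b.val ≤ mm i then g (i, b) else 0
      else if a.val ≤ mm i then g (i, 0) else 0 := by
  rw [Fintype.sum_prod_type]
  split_ifs with h h'
  · subst h
    have : ∀ j b, (Gr L).adjMatrix R (i, 0) (j, b) * g (j, b) =
        (if b = 0 then (if i.val + 1 = j.val ∨ j.val + 1 = i.val then g (j, 0) else 0) else 0) +
        if j = i then (if b ≠ 0 ∧ b.val ≤ mm i then g (i, b) else 0) else 0 := by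
      intro j b
      by_cases c : b = 0
      · simp [Gr, c]
      · by_cases e : j = i
        · simp [Gr, c, e]
        · simp [Gr, c, e, Ne.symm e]
    simp only [this, sum_add_distrib]
    rw [sum_comm (f := fun j b => if j = i then _ else _)]
    simp
  · rw [sum_eq_single i, sum_eq_single 0]
    · simp [Gr, h, h']
    · intro b _ c
      simp [Gr, h, c]
    · simp
    · intro j _ c
      simp [Gr, h, c.symm]
    · simp
  · simp [Gr, h, h']

end Pool.Agent.H.MP_e25938_co
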