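import Pool.Agent.H.MP_e25938_co.C

open Finset Matrix

namespace Pool.Agent.H.MP_e25938_co

theorem nbr (L : ℕ) (i : Fin (L + 1)) :
    (∑ j : Fin (L + 1), if i.val + 1 = j.val ∨ j.val + 1 = i.val then y Q0 j else 0) ≤
      Q0.β i * y Q0 i / 3 := by
  obtain ⟨i, hi⟩ := i
  rw [Fin.sum_univ_eq_sum_range (fun j => if i + 1 = j ∨ j + 1 = i then y Q0 j else 0)]
  have k : ∀ t, (∑ j ∈ range (L + 1), if t = j then y Q0 j else 0) ≤ y Q0 t := fun t => by
    rw [sum_ite_eq]
    split_ifs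
    · rfl
    · exact (y_pos t).le
  cases i with
  | zero =>
    simp only [zero_add, Nat.add_one_ne_zero, or_false]
    refine (k 1).trans_eq ?_
    simp [y, Q0.n0, Q0.n1]
  | succ i =>
    have : ∀ j, (if i + 1 + 1 = j ∨ j + 1 = i + 1 then y Q0 j else 0) =
        (if i + 2 = j then y Q0 j else 0) + if i = j then y Q0 j else 0 := fun j => by
      split_ifs <;> first | omega | simp
    simp only [this, sum_add_distrib]
    linarith [k (i + 2), k i, sol_y Q0 i]

theorem psd3 (L : ℕ) : ((Gr L).adjMatrix ℝ + (3 : ℝ) • (1 : Matrix _ _ ℝ)).PosSemidef := by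
  refine psd _ (fun v => ((if v.2 = 0 then y Q0 v.1 else y Q0 v.1 / 3 : ℚ) : ℝ)) ?_ ?_
  · intro v
    have := y_pos v.1
    split_ifs <;> positivity
  · rintro ⟨i, a⟩
    have := y_pos i
    have e : ∀ w, (Gr L).adjMatrix ℝ (i, a) w = ((Gr L).adjMatrix ℚ (i, a) w : ℚ) := fun w => by
      simp only [SimpleGraph.adjMatrix_apply]
      split_ifs <;> simp
    simp only [e]
    norm_cast
    rw [ns]
    by_cases h : a = 0
    · rw [if_pos h, if_pos h]
      have h1 : (∑ b : Fin 8, if b ≠ 0 ∧ b.val ≤ mm i then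
          (if b = 0 then y Q0 i else y Q0 i / 3) else 0) = mm i * (y Q0 i / 3) := by
        rw [← sum_filter, sum_congr rfl (g := fun _ => y Q0 i / 3), sum_const, mm_card,
          nsmul_eq_mul]
        intro b hb
        rw [if_neg (mem_filter.1 hb).2.1]
      have h2 : (mm i : ℚ) = 9 - Q0.β i := by exact_mod_cast mm_eq i
      have := nbr L i
      simp only [if_true, h1, h2]
      linarith
    · rw [if_neg h, if_neg h, if_pos rfl]
      split_ifs <;> linarith

theorem npsd (L : ℕ) : ¬((Gr L).adjMatrix ℝ + (2 : ℝ) • (1 : Matrix _ _ ℝ)).PosSemidef := by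
  intro h
  have := (h.submatrix fun a : Fin 8 => (0, a)).dotProduct_mulVec_nonneg
    fun a => if a = 0 then -5 else 2
  have e : ∀ a b : Fin 8, (Gr L).Adj (0, a) (0, b) ↔ (a = 0 ∧ b ≠ 0) ∨ (b = 0 ∧ a ≠ 0) :=
    fun a b => by
    have m : mm 0 = 7 := rfl
    simp [Gr, m, show a.val ≤ 7 by omega, show b.val ≤ 7 by omega]
  simp [dotProduct, mulVec, Fin.sum_univ_eight, e, one_apply] at this
  norm_num at this

def ka (L i : ℕ) (v : Fin (L + 1) × Fin 8) : ℤ :=
  if v.1.val = i then (if v.2 = 0 then 3 else if v.2.val ≤ mm i then -1 else 0) else 0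

theorem gram (L i j : ℕ) (hi : i ≤ L) (hj : j ≤ L) :
    ka L i ⬝ᵥ ((Gr L).adjMatrix ℤ + (3 : ℤ) • (1 : Matrix _ _ ℤ)) *ᵥ ka L j =
      (-1) ^ (i + j) * (3 * Jm Q0 i j) := by
  have e : ∀ a, (((Gr L).adjMatrix ℤ + (3 : ℤ) • (1 : Matrix _ _ ℤ)) *ᵥ ka L j)
      (⟨i, by omega⟩, a) = if a = 0 then (-1) ^ (i + j) * Jm Q0 i j else 0 := fun a => by
    rw [add_mulVec, smul_mulVec, one_mulVec, Pi.add_apply, mulVec, dotProduct, ns]
    by_cases h : a = 0
    · rw [if_pos h, if_pos h]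
      by_cases c : i = j
      · subst c
        have h1 : (∑ b : Fin 8, if b ≠ 0 ∧ b.val ≤ mm i then ka L i (⟨i, by omega⟩, b) else 0) =
            mm i * -1 := by
          rw [← sum_filter, sum_congr rfl (g := fun _ => -1), sum_const, mm_card, nsmul_eq_mul]
          intro b hb
          simp [ka, (mem_filter.1 hb).2.1, (mem_filter.1 hb).2.2]
        rw [h1, sum_eq_zero, mm_eq, ← two_mul, pow_mul]
        · simp [ka, h, Jm]
        · intro t _
          simp only [ka]
          split_ifs <;> omega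
      · rw [sum_eq_zero (s := (univ : Finset (Fin 8))) (by simp [ka, c]),
          sum_eq_single ⟨j, by omega⟩]
        · simp only [ka, Jm, if_neg c, Pi.smul_apply, if_true]
          split_ifs with d
          · rw [Odd.neg_one_pow ⟨min i j, by omega⟩]
            simp
          · simp
        · intro b _ hb
          have : b.val ≠ j := fun c => hb (Fin.ext c)
          simp [ka, this]
        · simp
    · simp only [if_neg h, ka, Pi.smul_apply, if_true]
      split_ifs <;> simp_all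
  rw [dotProduct, Fintype.sum_prod_type, sum_eq_single ⟨i, by omega⟩]
  · simp only [e]
    simp [ka]
    ring
  · intro b _ hb
    have : b.val ≠ i := fun c => hb (Fin.ext c)
    simp [ka, this]
  · simp

theorem final (c : ℕ) (hc : 0 < c) : ∃ L, ∀ m, ∀ N : Matrix (Fin (L + 1) × Fin 8) (Fin m) ℤ,
    (c : ℤ) • ((Gr L).adjMatrix ℤ + (3 : ℤ) • (1 : Matrix _ _ ℤ)) ≠ N * Nᵀ := by
  obtain ⟨L, h⟩ := core y_dec (3 * c) (by omega)
  refine ⟨L, fun m N e => h m (fun i k => (-1) ^ i * (ka L i ᵥ* N) k) fun i hi j hj => ?_⟩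
  have h1 := congrArg (fun M => ka L i ⬝ᵥ M *ᵥ ka L j) e
  simp only [smul_mulVec, dotProduct_smul, gram L i j hi hj, ← mulVec_mulVec, dotProduct_mulVec,
    mulVec_transpose] at h1
  have h2 : ((-1 : ℤ) ^ (i + j)) ^ 2 = 1 := by rw [← pow_mul, mul_comm, pow_mul]; simp
  have h3 : ∑ k, (-1) ^ i * (ka L i ᵥ* N) k * ((-1) ^ j * (ka L j ᵥ* N) k) =
      (-1) ^ (i + j) * ((ka L i ᵥ* N) ⬝ᵥ (ka L j ᵥ* N)) := by
    rw [dotProduct, mul_sum]
    exact sum_congr rfl fun k _ => by ring
  rw [h3, ← h1, smul_eq_mul]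
  push_cast
  linear_combination (3 * c * Jm Q0 i j) * h2

end Pool.Agent.H.MP_e25938_co
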